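import Pool.Agent.U722.FF.Stm

/-!
Project FS, package CONV: a finite free resolution in the sense of `FFle` gives `TF`.
-/

set_option autoImplicit false
set_option linter.unusedSectionVars false

namespace Pool.Agent.U364.FSP

open TH57.FF U722.FF

theorem FR_of_seq : ∀ (n : ℕ) {R : Type} [Ring R] (M : Type) [AddCommGroup M] [Module R M]
    (P : ℕ → Type) [∀ i, AddCommGroup (P i)] [∀ i, Module R (P i)]
    (d : ∀ i, P (i + 1) →ₗ[R] P i) (ε : P 0 →ₗ[R] M),
    (∀ i, Module.Finite R (P i)) → (∀ i, Module.Free R (P i)) →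
    (∀ i, n < i → Subsingleton (P i)) → Function.Surjective ε →
    (∀ x : P 0, ε x = 0 ↔ x ∈ LinearMap.range (d 0)) →
    (∀ i, LinearMap.range (d (i + 1)) = LinearMap.ker (d i)) → FR R n M
  | 0, R, _, M, _, _, P, _, _, d, ε, h1, h2, h3, h4, h5, _ => by
    have hinj : Function.Injective ε := by
      rw [injective_iff_map_eq_zero]
      intro x hx
      obtain ⟨y, hy⟩ := (h5 x).1 hx
      have : Subsingleton (P (0 + 1)) := h3 (0 + 1) (by omega)
      rw [← hy, Subsingleton.elim y 0, map_zero]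
    exact FR_equiv 0 (LinearEquiv.ofBijective ε ⟨hinj, h4⟩) ⟨h1 0, h2 0⟩
  | n + 1, R, _, M, _, _, P, _, _, d, ε, h1, h2, h3, h4, h5, h6 => by
    have := h1 0
    have := h2 0
    let b := Module.Free.chooseBasis R (P 0)
    let e : P 0 ≃ₗ[R] (Module.Free.ChooseBasisIndex R (P 0) → R) := b.equivFun
    let f : (Module.Free.ChooseBasisIndex R (P 0) → R) →ₗ[R] M := ε ∘ₗ e.symm.toLinearMap
    have hf : ∀ y, f y = ε (e.symm y) := fun _ => rfl
    have hmem : ∀ x : P (0 + 1), (e.toLinearMap ∘ₗ d 0) x ∈ LinearMap.ker f := by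
      intro x
      rw [LinearMap.mem_ker, hf]
      change ε (e.symm (e (d 0 x))) = 0
      rw [e.symm_apply_apply, h5]
      exact ⟨x, rfl⟩
    refine ⟨Module.Free.ChooseBasisIndex R (P 0), inferInstance, f, ?_, ?_⟩
    · intro m
      obtain ⟨x, hx⟩ := h4 m
      refine ⟨e x, ?_⟩
      rw [hf, e.symm_apply_apply, hx]
    · refine FR_of_seq n (LinearMap.ker f) (fun i => P (i + 1)) (fun i => d (i + 1))
        (LinearMap.codRestrict (LinearMap.ker f) (e.toLinearMap ∘ₗ d 0) hmem)
        (fun i => h1 (i + 1)) (fun i => h2 (i + 1)) (fun i hi => h3 (i + 1) (by omega)) ?_ ?_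
        (fun i => h6 (i + 1))
      · rintro ⟨y, hy⟩
        rw [LinearMap.mem_ker, hf, h5] at hy
        obtain ⟨z, hz⟩ := hy
        refine ⟨z, ?_⟩
        apply Subtype.ext
        change e (d 0 z) = y
        rw [hz, e.apply_symm_apply]
      · intro x
        rw [h6 0, LinearMap.mem_ker]
        constructor
        · intro hx
          have h7 : e (d 0 x) = 0 := congrArg Subtype.val hx
          exact e.map_eq_zero_iff.1 h7
        · intro hx
          apply Subtype.ext
          change e (d 0 x) = 0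
          rw [hx, map_zero]

theorem of_smul_unit (G : Type) [Group G] (g : G) (m : PM G PUnit.{1}) :
    MonoidAlgebra.of ℤ G g • m = m := by
  rw [of_smul]
  have h : (fun x : PUnit.{1} => g • x) = id := by
    funext x
    exact Subsingleton.elim _ _
  rw [h, Finsupp.mapDomain_id]

theorem t_CONV : ∀ (G : Type) [Group G], (∃ N, TH57.FF.FFle G N) → U722.FF.TF G := by
  intro G _ ⟨n, P, i1, i2, d, ε, h1, h2, h3, h4, h5, h6, h7⟩
  let ev : PM G PUnit.{1} ≃+ ℤ := (Finsupp.uniqueAddEquiv PUnit.unit.{1} : (PUnit.{1} →₀ ℤ) ≃+ ℤ)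
  let ε' : P 0 →ₗ[MonoidAlgebra ℤ G] PM G PUnit.{1} :=
    mkLin (ev.symm.toAddMonoidHom.comp ε) (by
      intro g x
      rw [of_smul_unit]
      change ev.symm (ε (MonoidAlgebra.of ℤ G g • x)) = ev.symm (ε x)
      rw [h4])
  have hε : ∀ x, ε' x = ev.symm (ε x) := fun _ => rfl
  refine ⟨n, FR_of_seq n (PM G PUnit.{1}) P d ε' h1 h2 h3 ?_ ?_ h7⟩
  · intro m
    obtain ⟨x, hx⟩ := h5 (ev m)
    refine ⟨x, ?_⟩
    rw [hε, hx, ev.symm_apply_apply]
  · intro x
    rw [hε, ← h6 x]
    exact ev.symm.map_eq_zero_iff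

end Pool.Agent.U364.FSP
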